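import Pool.Agent.Phi44.Main

namespace Pool.Agent.Results.MP_64a55e_nt.ExceptionStructure

/-- `a n`: the number of `k` with `0 < k < n/2` such that `φ(k) φ(n-k)` is a perfect square. -/
def a (n : ℕ) : ℕ :=
  ((Finset.range n).filter
    (fun k => 0 < k ∧ 2 * k < n ∧ IsSquare (Nat.totient k * Nat.totient (n - k)))).card

lemma good_iff (n : ℕ) : ¬ Pool.Agent.Phi44.Good n ↔ a n = 0 := by
  unfold a Pool.Agent.Phi44.Good
  rw [Finset.card_eq_zero, Finset.filter_eq_empty_iff]
  constructor
  · intro h k _ hk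
    exact h ⟨k, hk⟩
  · rintro h ⟨k, h1, h2, h3⟩
    exact h (Finset.mem_range.2 (by omega)) ⟨h1, h2, h3⟩

/-- Every counterexample `n > 8` is `c * m` with `c ∈ {1, 2, 4, 5, 8}`, all prime factors of `m > 1`
exceed `131072`, and the least prime factor `q` of `m` is itself a counterexample in the sense that
`φ(c k) φ(c l)` is not a square for any `k < l` with `k + l = q`. -/
theorem result (n : ℕ) (hn : 8 < n) (h : a n = 0) :
    ∃ c ∈ ({1, 2, 4, 5, 8} : Finset ℕ), ∃ m, n = c * m ∧ 1 < m ∧
      (∀ p, p.Prime → p ∣ m → 131072 < p) ∧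
      ∀ k l, 0 < k → k < l → k + l = m.minFac →
        ¬ IsSquare (Nat.totient (c * k) * Nat.totient (c * l)) :=
  Pool.Agent.Phi44.structure_bad hn ((good_iff n).2 h)

end Pool.Agent.Results.MP_64a55e_nt.ExceptionStructure
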