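import Pool.Agent.Sun64.All
import Pool.Agent.Sun64.DensAll

/-! Squares of the form phi(k)phi(n-k): all multiples of a prime between 3 and 120000, except 5,
and a set of lower density at least 9/10. -/

namespace Pool.Agent.Results.MP_64a55e_nt.SmallPrimeFactor

open Pool.Agent.Sun64

/-- `a(n)`: the number of `k` with `0 < k < n/2` such that `phi(k) * phi(n-k)` is a square -/
def sunCount (n : ℕ) : ℕ :=
  ((Finset.Ioo 0 n).filter
    (fun k => 2 * k < n ∧ IsSquare (Nat.totient k * Nat.totient (n - k)))).card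

theorem not_good {n : ℕ} (h : sunCount n = 0) : ¬ Good1 n := by
  rintro ⟨k, h1, h2, h3⟩
  have : k ∈ (Finset.Ioo 0 n).filter
      (fun k => 2 * k < n ∧ IsSquare (Nat.totient k * Nat.totient (n - k))) := by
    rw [Finset.mem_filter, Finset.mem_Ioo]
    exact ⟨⟨h1, by omega⟩, h2, h3⟩
  rw [sunCount, Finset.card_eq_zero] at h
  rw [h] at this
  simp at this

theorem struct {n : ℕ} (h8 : 8 < n) (h0 : sunCount n = 0) :
    ∃ c ∈ ({1, 2, 4, 5, 8} : Finset ℕ), ∃ t, n = c * t ∧ ∀ q, q.Prime → q ∣ t → 120000 < q := by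
  have hg := not_good h0
  have hp : ∀ q : ℕ, q.Prime → q ∣ n → q = 2 ∨ q = 5 ∨ 120000 < q := by
    intro q hq hd
    by_contra hc
    push Not at hc
    obtain ⟨c1, c2, c3⟩ := hc
    have := hq.two_le
    exact hg (good_prime q hq (by omega) c2 c3 n h8 hd)
  have h10 : ¬ 10 ∣ n := fun hd => hg (good10 n h8 hd)
  have h16 : ¬ 16 ∣ n := fun hd => hg (good16 n h8 hd)
  have h25 : ¬ 25 ∣ n := fun hd => hg (good25 n h8 hd)
  obtain ⟨i, t1, ht1, e1⟩ := Nat.exists_eq_pow_mul_and_not_dvd (n := n) (by omega) 2 (by norm_num)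
  have ht1pos : t1 ≠ 0 := by rintro rfl; exact ht1 (dvd_zero 2)
  obtain ⟨j, t, ht, e2⟩ := Nat.exists_eq_pow_mul_and_not_dvd (n := t1) ht1pos 5 (by norm_num)
  have ht2 : ¬ 2 ∣ t := fun hd => ht1 (by rw [e2]; exact Dvd.dvd.mul_left hd _)
  have hi : i < 4 := by
    by_contra hc
    push Not at hc
    exact h16 (by rw [e1]; exact Dvd.dvd.mul_right (pow_dvd_pow 2 hc) t1)
  have hj : j < 2 := by
    by_contra hc
    push Not at hc
    exact h25 (by
      rw [e1, e2]
      exact Dvd.dvd.mul_left (Dvd.dvd.mul_right (pow_dvd_pow 5 hc) t) _)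
  have hij : i = 0 ∨ j = 0 := by
    by_contra hc
    push Not at hc
    have a1 : 2 ∣ n := by rw [e1]; exact Dvd.dvd.mul_right (dvd_pow_self 2 hc.1) t1
    have a2 : 5 ∣ n := by
      rw [e1, e2]; exact Dvd.dvd.mul_left (Dvd.dvd.mul_right (dvd_pow_self 5 hc.2) t) _
    have := Nat.Coprime.mul_dvd_of_dvd_of_dvd (by norm_num : Nat.Coprime 2 5) a1 a2
    exact h10 (by simpa using this)
  have hq : ∀ q, q.Prime → q ∣ t → 120000 < q := by
    intro q hq hd
    rcases hp q hq (by rw [e1, e2]; exact Dvd.dvd.mul_left (Dvd.dvd.mul_left hd _) _) with h | h | h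
    · subst h; exact absurd hd ht2
    · subst h; exact absurd hd ht
    · exact h
  refine ⟨2 ^ i * 5 ^ j, ?_, t, by rw [e1, e2]; ring, hq⟩
  interval_cases i <;> interval_cases j <;> simp_all

theorem count_le (P X : ℕ) (hP : 0 < P) :
    ((Finset.Icc 1 X).filter (fun t => P.Coprime t)).card ≤ Nat.totient P * (X / P + 1) := by
  have h := Nat.Ico_filter_coprime_le (a := P) 1 X hP.ne'
  have e : Finset.Ico 1 (1 + X) = Finset.Icc 1 X := by
    ext x; simp only [Finset.mem_Ico, Finset.mem_Icc]; omega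
  rwa [e] at h

theorem result :
    (∀ n, 8 < n → sunCount n = 0 → ∃ c ∈ ({1, 2, 4, 5, 8} : Finset ℕ), ∃ t, n = c * t ∧
      ∀ q, q.Prime → q ∣ t → 120000 < q) ∧
    (∃ C, ∀ N, 10 * ((Finset.Icc 1 N).filter (fun n => sunCount n = 0)).card ≤ N + C) := by
  refine ⟨fun n h8 h0 => struct h8 h0, ?_⟩
  obtain ⟨P, hP, hr, hφ⟩ := seg_all
  refine ⟨80 + 50 * Nat.totient P, fun N => ?_⟩
  have hsub : (Finset.Icc 1 N).filter (fun n => sunCount n = 0) ⊆
      Finset.Icc 1 8 ∪ ({1, 2, 4, 5, 8} : Finset ℕ).biUnion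
        (fun c => ((Finset.Icc 1 (N / c)).filter (fun t => P.Coprime t)).image (fun t => c * t)) := by
    intro n hn
    rw [Finset.mem_filter, Finset.mem_Icc] at hn
    obtain ⟨⟨n1, nN⟩, h0⟩ := hn
    rw [Finset.mem_union]
    by_cases h8 : n ≤ 8
    · left; rw [Finset.mem_Icc]; exact ⟨n1, h8⟩
    · right
      obtain ⟨c, hc, t, e, ht⟩ := struct (by omega) h0
      rw [Finset.mem_biUnion]
      refine ⟨c, hc, ?_⟩
      rw [Finset.mem_image]
      refine ⟨t, ?_, e.symm⟩
      have hc0 : 0 < c := by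
        simp only [Finset.mem_insert, Finset.mem_singleton] at hc; omega
      have ht0 : 0 < t := by
        rcases Nat.eq_zero_or_pos t with h | h
        · subst h; simp at e; omega
        · exact h
      rw [Finset.mem_filter, Finset.mem_Icc]
      refine ⟨⟨ht0, ?_⟩, ?_⟩
      · rw [Nat.le_div_iff_mul_le hc0]; rw [e] at nN; linarith [Nat.mul_comm c t]
      · rw [Nat.coprime_iff_gcd_eq_one]
        by_contra hne
        obtain ⟨r, hr1, hd⟩ := Nat.exists_prime_and_dvd hne
        have a1 := (hr r hr1 (hd.trans (Nat.gcd_dvd_left _ _))).2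
        have a2 := ht r hr1 (hd.trans (Nat.gcd_dvd_right _ _))
        omega
  have hcard := Finset.card_le_card hsub
  have h1 := Finset.card_union_le (Finset.Icc 1 8) (({1, 2, 4, 5, 8} : Finset ℕ).biUnion
        (fun c => ((Finset.Icc 1 (N / c)).filter (fun t => P.Coprime t)).image (fun t => c * t)))
  have h2 : (({1, 2, 4, 5, 8} : Finset ℕ).biUnion
        (fun c => ((Finset.Icc 1 (N / c)).filter (fun t => P.Coprime t)).image
          (fun t => c * t))).card ≤
      ∑ c ∈ ({1, 2, 4, 5, 8} : Finset ℕ), Nat.totient P * (N / c / P + 1) := by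
    refine Finset.card_biUnion_le.trans (Finset.sum_le_sum fun c _ => ?_)
    exact Finset.card_image_le.trans (count_le P _ hP)
  have h3 : ∑ c ∈ ({1, 2, 4, 5, 8} : Finset ℕ), Nat.totient P * (N / c / P + 1) =
      Nat.totient P * (N / 1 / P + N / 2 / P + N / 4 / P + N / 5 / P + N / 8 / P) +
        5 * Nat.totient P := by
    rw [Finset.sum_insert (by decide), Finset.sum_insert (by decide),
      Finset.sum_insert (by decide), Finset.sum_insert (by decide), Finset.sum_singleton]
    ring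
  have h4 : (Finset.Icc 1 8 : Finset ℕ).card = 8 := by simp
  have hb : ∀ c, c * (P * (N / c / P)) ≤ N := by
    intro c
    calc c * (P * (N / c / P)) ≤ c * (N / c) := Nat.mul_le_mul_left _ (Nat.mul_div_le _ _)
      _ ≤ N := Nat.mul_div_le _ _
  have b1 := hb 1
  have b2 := hb 2
  have b4 := hb 4
  have b5 := hb 5
  have b8 := hb 8
  set S := N / 1 / P + N / 2 / P + N / 4 / P + N / 5 / P + N / 8 / P with hS
  have h5 : 40 * (P * S) ≤ 83 * N := by
    have : P * S = P * (N / 1 / P) + P * (N / 2 / P) + P * (N / 4 / P) + P * (N / 5 / P) +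
        P * (N / 8 / P) := by rw [hS]; ring
    omega
  have h6 : 10 * (Nat.totient P * S) ≤ N := by
    have : 4 * P * (10 * (Nat.totient P * S)) ≤ 4 * P * N := by
      calc 4 * P * (10 * (Nat.totient P * S)) = Nat.totient P * (40 * (P * S)) := by ring
        _ ≤ Nat.totient P * (83 * N) := Nat.mul_le_mul_left _ h5
        _ = Nat.totient P * 83 * N := by ring
        _ ≤ 4 * P * N := Nat.mul_le_mul_right _ hφ
    exact Nat.le_of_mul_le_mul_left this (by omega)
  omega

end Pool.Agent.Results.MP_64a55e_nt.SmallPrimeFactor
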